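import Pool.Agent.W79.BP.Defs

set_option autoImplicit false

/-! Project BP, part A: many cycles. -/

namespace Pool.Agent.W351.BP.A

open scoped Classical
open Pool.Agent.W79.BP

noncomputable def bad1 {n : ℕ} (σ : Equiv.Perm (Fin n)) (q : ℕ) :
    Finset (SimpleGraph (Fin n)) :=
  (Fx σ).filter (fun β => ∃ τ ∈ Au β,
      q ≤ ((Cy σ).filter (fun C => ∃ x ∈ C, τ x ∉ C)).card)

noncomputable def bad2 {n : ℕ} (σ : Equiv.Perm (Fin n)) (q : ℕ) (x y : Fin n) :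
    Finset (SimpleGraph (Fin n)) :=
  (Fx σ).filter (fun β => ((Cy σ).filter (fun C => x ∉ C ∧ y ∉ C ∧
      (C.filter (β.Adj x)).card ≠ (C.filter (β.Adj y)).card)).card < q)

theorem deg_eq {n : ℕ} (β : SimpleGraph (Fin n)) (τ : Equiv.Perm (Fin n)) (hτ : τ ∈ Au β)
    (C : Finset (Fin n)) (hC : ∀ z ∈ C, τ z ∈ C) (x : Fin n) :
    (C.filter (β.Adj x)).card = (C.filter (β.Adj (τ x))).card := by
  have hadj : ∀ a b, β.Adj (τ a) (τ b) ↔ β.Adj a b := by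
    intro a b
    have h := (Finset.mem_filter.1 hτ).2
    have h2 : (SimpleGraph.comap (⇑τ) β).Adj a b ↔ β.Adj a b := by rw [h]
    exact h2
  have himg : C.image τ = C := by
    apply Finset.eq_of_subset_of_card_le
    · intro w hw
      obtain ⟨z, hz, rfl⟩ := Finset.mem_image.1 hw
      exact hC z hz
    · rw [Finset.card_image_of_injective _ τ.injective]
  have h2 : C.filter (β.Adj (τ x)) = (C.filter (β.Adj x)).image τ := by
    ext w
    simp only [Finset.mem_filter, Finset.mem_image]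
    constructor
    · rintro ⟨hw, ha⟩
      rw [← himg] at hw
      obtain ⟨z, hz, rfl⟩ := Finset.mem_image.1 hw
      exact ⟨z, ⟨hz, (hadj x z).1 ha⟩, rfl⟩
    · rintro ⟨z, ⟨hz, ha⟩, rfl⟩
      exact ⟨hC z hz, (hadj x z).2 ha⟩
  rw [h2, Finset.card_image_of_injective _ τ.injective]

theorem mem_bad {n : ℕ} (σ : Equiv.Perm (Fin n)) (q : ℕ) (β : SimpleGraph (Fin n))
    (hβ : β ∈ Fx σ) (τ : Equiv.Perm (Fin n)) (hτ : τ ∈ Au β) (x : Fin n) :
    β ∈ bad1 σ q ∨ β ∈ bad2 σ q x (τ x) := by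
  by_cases h : q ≤ ((Cy σ).filter (fun C => ∃ x ∈ C, τ x ∉ C)).card
  · left
    exact Finset.mem_filter.2 ⟨hβ, τ, hτ, h⟩
  · right
    refine Finset.mem_filter.2 ⟨hβ, ?_⟩
    refine lt_of_le_of_lt (Finset.card_le_card ?_) (not_le.1 h)
    intro C hC
    rw [Finset.mem_filter] at hC ⊢
    refine ⟨hC.1, ?_⟩
    by_contra hno
    push Not at hno
    exact hC.2.2.2 (deg_eq β τ hτ C hno x)

theorem sum_choose (N' q : ℕ) :
    4 ^ N' * ∑ j ∈ Finset.range q, N'.choose j ≤ 4 ^ q * 5 ^ N' := by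
  rw [Finset.mul_sum]
  have h5 : (5 : ℕ) ^ N' = ∑ j ∈ Finset.range (N' + 1), 4 ^ (N' - j) * N'.choose j := by
    have h := add_pow (1 : ℕ) 4 N'
    rw [show (1 : ℕ) + 4 = 5 from rfl] at h
    rw [h]
    refine Finset.sum_congr rfl fun j _ => ?_
    simp
  calc ∑ j ∈ Finset.range q, 4 ^ N' * N'.choose j
      ≤ ∑ j ∈ Finset.range q, 4 ^ q * (4 ^ (N' - j) * N'.choose j) := by
        refine Finset.sum_le_sum fun j hj => ?_
        have hj' : j < q := Finset.mem_range.1 hj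
        by_cases hjN : j ≤ N'
        · have h1 : (4 : ℕ) ^ N' = 4 ^ j * 4 ^ (N' - j) := by
            rw [← pow_add]; congr 1; omega
          have h2 : (4 : ℕ) ^ j ≤ 4 ^ q := Nat.pow_le_pow_right (by norm_num) hj'.le
          rw [h1, mul_assoc]
          exact Nat.mul_le_mul_right _ h2
        · rw [Nat.choose_eq_zero_of_lt (by omega)]
          simp
    _ = 4 ^ q * ∑ j ∈ Finset.range q, 4 ^ (N' - j) * N'.choose j := by rw [Finset.mul_sum]
    _ ≤ 4 ^ q * ∑ j ∈ Finset.range (N' + 1), 4 ^ (N' - j) * N'.choose j := by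
        refine Nat.mul_le_mul_left _ (Finset.sum_le_sum_of_ne_zero ?_)
        intro j _ hj
        rw [Finset.mem_range]
        by_contra hlt
        refine hj ?_
        rw [Nat.choose_eq_zero_of_lt (by omega), mul_zero]
    _ = 4 ^ q * 5 ^ N' := by rw [h5]

theorem num2 (B n N : ℕ) (hB : 1 ≤ B) (hn : n ≤ 2 ^ B) (hN : 160 * B ≤ N) :
    4 ^ (40 * B) * 5 ^ (N - 2) * (2 * n ^ 6) ≤ 8 ^ (N - 2) := by
  have h8 : (8 : ℕ) ^ N = 8 ^ (N - 2) * 64 := by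
    rw [show (64 : ℕ) = 8 ^ 2 from by norm_num, ← pow_add]
    congr 1
    omega
  have h5 : (5 : ℕ) ^ (N - 2) ≤ 5 ^ N := Nat.pow_le_pow_right (by norm_num) (by omega)
  have hn6 : n ^ 6 ≤ 2 ^ (6 * B) := by
    calc n ^ 6 ≤ (2 ^ B) ^ 6 := Nat.pow_le_pow_left hn 6
      _ = 2 ^ (6 * B) := by rw [← pow_mul, mul_comm]
  have h160 : (5 : ℕ) ^ (160 * B) * 2 ^ (108 * B) ≤ 8 ^ (160 * B) := by
    have h0 : (5 : ℕ) ^ 160 * 2 ^ 108 ≤ 8 ^ 160 := by norm_num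
    calc (5 : ℕ) ^ (160 * B) * 2 ^ (108 * B) = (5 ^ 160 * 2 ^ 108) ^ B := by
          rw [mul_pow, ← pow_mul, ← pow_mul]
      _ ≤ (8 ^ 160) ^ B := Nat.pow_le_pow_left h0 B
      _ = 8 ^ (160 * B) := by rw [← pow_mul]
  obtain ⟨r, rfl⟩ : ∃ r, N = 160 * B + r := ⟨N - 160 * B, by omega⟩
  have h58 : (5 : ℕ) ^ r ≤ 8 ^ r := Nat.pow_le_pow_left (by norm_num) r
  have hmain : 4 ^ (40 * B) * 5 ^ (160 * B + r) * (2 * n ^ 6) * 64 ≤ 8 ^ (160 * B + r) := by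
    calc 4 ^ (40 * B) * 5 ^ (160 * B + r) * (2 * n ^ 6) * 64
        ≤ 4 ^ (40 * B) * 5 ^ (160 * B + r) * (2 * 2 ^ (6 * B)) * 64 := by gcongr
      _ = 5 ^ (160 * B) * (4 ^ (40 * B) * 2 ^ (6 * B) * 2 ^ 7) * 5 ^ r := by
          rw [pow_add]; ring
      _ = 5 ^ (160 * B) * 2 ^ (86 * B + 7) * 5 ^ r := by
          congr 2
          rw [show (4 : ℕ) = 2 ^ 2 from by norm_num, ← pow_mul, ← pow_add, ← pow_add]
          congr 1
          ring
      _ ≤ 5 ^ (160 * B) * 2 ^ (108 * B) * 8 ^ r := by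
          have : (2 : ℕ) ^ (86 * B + 7) ≤ 2 ^ (108 * B) :=
            Nat.pow_le_pow_right (by norm_num) (by omega)
          gcongr
      _ ≤ 8 ^ (160 * B) * 8 ^ r := Nat.mul_le_mul_right _ h160
      _ = 8 ^ (160 * B + r) := by rw [pow_add]
  have hfin : 4 ^ (40 * B) * 5 ^ (160 * B + r - 2) * (2 * n ^ 6) * 64 ≤
      8 ^ (160 * B + r - 2) * 64 := by
    rw [← h8]
    refine le_trans ?_ hmain
    have h5' : (5 : ℕ) ^ (160 * B + r - 2) ≤ 5 ^ (160 * B + r) := h5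
    exact Nat.mul_le_mul_right _ (Nat.mul_le_mul_right _ (Nat.mul_le_mul_left _ h5'))
  exact Nat.le_of_mul_le_mul_right hfin (by norm_num)

theorem num1 (B n a F : ℕ) (hB : 1 ≤ B) (hn : n ≤ 2 ^ B)
    (h : a * 2 ^ ((40 * B * (40 * B) - 40 * B) / 4) ≤ n ^ (4 * (40 * B)) * F) :
    a * (2 * n ^ 4) ≤ F := by
  have he : (40 * B * (40 * B) - 40 * B) / 4 = 400 * (B * B) - 10 * B := by
    have : 40 * B * (40 * B) = 1600 * (B * B) := by ring
    rw [this]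
    omega
  rw [he] at h
  have hBB : B ≤ B * B := Nat.le_mul_self B
  have hnp : n ^ (4 * (40 * B)) ≤ 2 ^ (160 * (B * B)) := by
    calc n ^ (4 * (40 * B)) ≤ (2 ^ B) ^ (4 * (40 * B)) := Nat.pow_le_pow_left hn _
      _ = 2 ^ (160 * (B * B)) := by rw [← pow_mul]; congr 1; ring
  have hn4 : 2 * n ^ 4 ≤ 2 ^ (4 * B + 1) := by
    calc 2 * n ^ 4 ≤ 2 * (2 ^ B) ^ 4 := Nat.mul_le_mul_left _ (Nat.pow_le_pow_left hn 4)
      _ = 2 ^ (4 * B + 1) := by rw [← pow_mul, mul_comm B 4, pow_succ]; ring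
  have h2 : a * 2 ^ (400 * (B * B) - 10 * B) ≤ 2 ^ (160 * (B * B)) * F :=
    h.trans (Nat.mul_le_mul_right _ hnp)
  have h3 : (2 : ℕ) ^ (4 * B + 1) * 2 ^ (160 * (B * B)) ≤ 2 ^ (400 * (B * B) - 10 * B) := by
    rw [← pow_add]
    exact Nat.pow_le_pow_right (by norm_num) (by omega)
  have h4 : a * (2 * n ^ 4) * 2 ^ (160 * (B * B)) ≤ F * 2 ^ (160 * (B * B)) := by
    calc a * (2 * n ^ 4) * 2 ^ (160 * (B * B))
        ≤ a * 2 ^ (4 * B + 1) * 2 ^ (160 * (B * B)) := by gcongr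
      _ = a * (2 ^ (4 * B + 1) * 2 ^ (160 * (B * B))) := by ring
      _ ≤ a * 2 ^ (400 * (B * B) - 10 * B) := Nat.mul_le_mul_left _ h3
      _ ≤ 2 ^ (160 * (B * B)) * F := h2
      _ = F * 2 ^ (160 * (B * B)) := by ring
  exact Nat.le_of_mul_le_mul_right h4 (by positivity)

theorem main : S_A1 → S_A2 → S_A := by
  intro hA1 hA2
  refine ⟨1, ?_⟩
  intro n hn1 σ hN
  have hB : 1 ≤ b n := by unfold b; omega
  have hnB : n ≤ 2 ^ b n := by
    unfold b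
    exact (Nat.lt_pow_succ_log_self (by norm_num) n).le
  obtain ⟨B, hBd⟩ : ∃ B, B = b n := ⟨_, rfl⟩
  rw [← hBd] at hB hnB hN
  have h1 : (bad1 σ (40 * B)).card * (2 * n ^ 4) ≤ (Fx σ).card := by
    refine num1 B n _ _ hB hnB ?_
    exact hA1 n σ (40 * B) (by omega)
  have h2 : ∀ x y : Fin n, ¬ σ.SameCycle x y →
      (bad2 σ (40 * B) x y).card * (2 * n ^ 6) ≤ (Fx σ).card := by
    intro x y hxy
    have h3 : (bad2 σ (40 * B) x y).card * 2 ^ ((Cy σ).card - 2) ≤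
        (∑ j ∈ Finset.range (40 * B), ((Cy σ).card - 2).choose j) * (Fx σ).card :=
      hA2 n σ x y (40 * B) hxy
    have h4 := sum_choose ((Cy σ).card - 2) (40 * B)
    have h5 := num2 B n (Cy σ).card hB hnB hN
    have h6 : (bad2 σ (40 * B) x y).card * 8 ^ ((Cy σ).card - 2) ≤
        4 ^ (40 * B) * 5 ^ ((Cy σ).card - 2) * (Fx σ).card := by
      calc (bad2 σ (40 * B) x y).card * 8 ^ ((Cy σ).card - 2)
          = 4 ^ ((Cy σ).card - 2) *
            ((bad2 σ (40 * B) x y).card * 2 ^ ((Cy σ).card - 2)) := by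
            rw [show (8 : ℕ) = 4 * 2 from rfl, mul_pow]; ring
        _ ≤ 4 ^ ((Cy σ).card - 2) *
            ((∑ j ∈ Finset.range (40 * B), ((Cy σ).card - 2).choose j) * (Fx σ).card) :=
            Nat.mul_le_mul_left _ h3
        _ = (4 ^ ((Cy σ).card - 2) *
            ∑ j ∈ Finset.range (40 * B), ((Cy σ).card - 2).choose j) * (Fx σ).card := by ring
        _ ≤ 4 ^ (40 * B) * 5 ^ ((Cy σ).card - 2) * (Fx σ).card := Nat.mul_le_mul_right _ h4
    have h7 : (bad2 σ (40 * B) x y).card * (2 * n ^ 6) * 8 ^ ((Cy σ).card - 2) ≤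
        (Fx σ).card * 8 ^ ((Cy σ).card - 2) := by
      calc (bad2 σ (40 * B) x y).card * (2 * n ^ 6) * 8 ^ ((Cy σ).card - 2)
          = ((bad2 σ (40 * B) x y).card * 8 ^ ((Cy σ).card - 2)) * (2 * n ^ 6) := by ring
        _ ≤ (4 ^ (40 * B) * 5 ^ ((Cy σ).card - 2) * (Fx σ).card) * (2 * n ^ 6) :=
            Nat.mul_le_mul_right _ h6
        _ = (Fx σ).card * (4 ^ (40 * B) * 5 ^ ((Cy σ).card - 2) * (2 * n ^ 6)) := by ring
        _ ≤ (Fx σ).card * 8 ^ ((Cy σ).card - 2) := Nat.mul_le_mul_left _ h5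
    exact Nat.le_of_mul_le_mul_right h7 (by positivity)
  obtain ⟨P, hP⟩ : ∃ P : Finset (Fin n × Fin n),
    P = Finset.univ.filter (fun p : Fin n × Fin n => ¬ σ.SameCycle p.1 p.2) := ⟨_, rfl⟩
  have hPc : P.card ≤ n ^ 2 := by
    rw [hP]
    refine (Finset.card_filter_le _ _).trans ?_
    rw [Finset.card_univ, Fintype.card_prod, Fintype.card_fin, sq]
  have hsub : ((Fx σ).filter (fun β => ∃ τ ∈ Au β, ∃ x, ¬ σ.SameCycle x (τ x))) ⊆
      bad1 σ (40 * B) ∪ P.biUnion (fun p => bad2 σ (40 * B) p.1 p.2) := by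
    intro β hβ
    obtain ⟨hβF, τ, hτ, x, hx⟩ := Finset.mem_filter.1 hβ
    rcases mem_bad σ (40 * B) β hβF τ hτ x with h | h
    · exact Finset.mem_union_left _ h
    · refine Finset.mem_union_right _ (Finset.mem_biUnion.2 ⟨(x, τ x), ?_, h⟩)
      rw [hP]
      exact Finset.mem_filter.2 ⟨Finset.mem_univ _, hx⟩
  have hcard : ((Fx σ).filter (fun β => ∃ τ ∈ Au β, ∃ x, ¬ σ.SameCycle x (τ x))).card ≤
      (bad1 σ (40 * B)).card + ∑ p ∈ P, (bad2 σ (40 * B) p.1 p.2).card :=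
    (Finset.card_le_card hsub).trans ((Finset.card_union_le _ _).trans
      (Nat.add_le_add_left Finset.card_biUnion_le _))
  have hs : (∑ p ∈ P, (bad2 σ (40 * B) p.1 p.2).card) * (2 * n ^ 4) ≤ (Fx σ).card := by
    have h8 : (∑ p ∈ P, (bad2 σ (40 * B) p.1 p.2).card) * (2 * n ^ 6) ≤
        n ^ 2 * (Fx σ).card := by
      rw [Finset.sum_mul]
      calc ∑ p ∈ P, (bad2 σ (40 * B) p.1 p.2).card * (2 * n ^ 6)
          ≤ ∑ p ∈ P, (Fx σ).card := by
            refine Finset.sum_le_sum fun p hp => h2 p.1 p.2 ?_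
            rw [hP] at hp
            exact (Finset.mem_filter.1 hp).2
        _ = P.card * (Fx σ).card := by rw [Finset.sum_const, smul_eq_mul]
        _ ≤ n ^ 2 * (Fx σ).card := Nat.mul_le_mul_right _ hPc
    have h9 : (∑ p ∈ P, (bad2 σ (40 * B) p.1 p.2).card) * (2 * n ^ 4) * n ^ 2 ≤
        (Fx σ).card * n ^ 2 := by
      calc (∑ p ∈ P, (bad2 σ (40 * B) p.1 p.2).card) * (2 * n ^ 4) * n ^ 2
          = (∑ p ∈ P, (bad2 σ (40 * B) p.1 p.2).card) * (2 * n ^ 6) := by ring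
        _ ≤ n ^ 2 * (Fx σ).card := h8
        _ = (Fx σ).card * n ^ 2 := by ring
    exact Nat.le_of_mul_le_mul_right h9 (by positivity)
  have hfin : 2 * (((Fx σ).filter (fun β => ∃ τ ∈ Au β, ∃ x, ¬ σ.SameCycle x (τ x))).card *
      n ^ 4) ≤ 2 * (Fx σ).card := by
    calc 2 * (((Fx σ).filter (fun β => ∃ τ ∈ Au β, ∃ x, ¬ σ.SameCycle x (τ x))).card * n ^ 4)
        = ((Fx σ).filter (fun β => ∃ τ ∈ Au β, ∃ x, ¬ σ.SameCycle x (τ x))).card *
          (2 * n ^ 4) := by ring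
      _ ≤ ((bad1 σ (40 * B)).card + ∑ p ∈ P, (bad2 σ (40 * B) p.1 p.2).card) *
          (2 * n ^ 4) := Nat.mul_le_mul_right _ hcard
      _ = (bad1 σ (40 * B)).card * (2 * n ^ 4) +
          (∑ p ∈ P, (bad2 σ (40 * B) p.1 p.2).card) * (2 * n ^ 4) := by ring
      _ ≤ (Fx σ).card + (Fx σ).card := Nat.add_le_add h1 hs
      _ = 2 * (Fx σ).card := by ring
  omega

end Pool.Agent.W351.BP.A
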